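import Pool.Agent.Helper31.LQ.Goals

set_option autoImplicit false

open MeasureTheory Set
open scoped ENNReal Matrix

noncomputable section

namespace Pool.Agent.Helper56.LQ

open Pool.Agent.Helper31.LQ

variable {n d : ℕ}

theorem lin_add (Y : Fin n → Fin d → ℝ) (x y : Fin n → ℝ) : lin Y (x + y) = lin Y x + lin Y y := by
  funext c
  simp only [lin, Pi.add_apply, add_mul, Finset.sum_add_distrib]

theorem grm_one_mul (W : Matrix (Fin n) (Fin n) ℝ) (Z : Fin n → Fin d → ℝ) :
    grm 1 (fun m c => ∑ l, W m l * Z l c) = grm (Wᵀ * W) Z := by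
  ext a b
  simp only [grm, Matrix.of_apply]
  calc ∑ l, ∑ m, (∑ i, W l i * Z i a) * (1 : Matrix (Fin n) (Fin n) ℝ) l m * (∑ j, W m j * Z j b)
      = ∑ l, (∑ i, W l i * Z i a) * (∑ j, W l j * Z j b) := by
        refine Finset.sum_congr rfl (fun l _ => ?_)
        rw [Finset.sum_eq_single l]
        · rw [Matrix.one_apply_eq, mul_one]
        · intro m _ hm
          rw [Matrix.one_apply_ne hm.symm, mul_zero, zero_mul]
        · intro h; exact absurd (Finset.mem_univ l) h
    _ = ∑ l, ∑ i, ∑ j, (W l i * Z i a) * (W l j * Z j b) := by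
        refine Finset.sum_congr rfl (fun l _ => ?_)
        rw [Finset.sum_mul_sum]
    _ = ∑ i, ∑ j, ∑ l, (W l i * Z i a) * (W l j * Z j b) := by
        rw [Finset.sum_comm]
        refine Finset.sum_congr rfl (fun i _ => ?_)
        rw [Finset.sum_comm]
    _ = ∑ i, ∑ j, Z i a * (Wᵀ * W) i j * Z j b := by
        refine Finset.sum_congr rfl (fun i _ => Finset.sum_congr rfl (fun j _ => ?_))
        rw [Matrix.mul_apply, Finset.mul_sum, Finset.sum_mul]
        refine Finset.sum_congr rfl (fun l _ => ?_)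
        rw [Matrix.transpose_apply]
        ring

theorem eta_one_mul (W : Matrix (Fin n) (Fin n) ℝ) (Z : Fin n → Fin d → ℝ) :
    eta 1 (fun m c => ∑ l, W m l * Z l c) = eta (Wᵀ * W) Z := by
  rw [eta, eta, grm_one_mul]

theorem posDef_tmul {W : Matrix (Fin n) (Fin n) ℝ} (hW : IsUnit W) : (Wᵀ * W).PosDef := by
  have h : Wᵀ = Wᴴ := by
    ext i j
    simp [Matrix.conjTranspose_apply]
  rw [h]
  refine Matrix.PosDef.conjTranspose_mul_self W ?_
  exact Matrix.mulVec_injective_of_isUnit hW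

theorem gAFFJ (hR : RMUL) (hG : G2) (hF : FKH) : AFFJ := by
  intro n d hd hdn A K hK
  set T : (Fin n → ℝ) →ₗ[ℝ] (Fin n → ℝ) := (A.linear : (Fin n → ℝ) →ₗ[ℝ] (Fin n → ℝ)) with hT
  set M : Matrix (Fin n) (Fin n) ℝ := LinearMap.toMatrix' T with hM
  have hA : ∀ x, A x = T x + A 0 := by
    intro x
    have := A.map_vadd 0 x
    simp only [vadd_eq_add, add_zero] at this
    exact this
  have hTM : ∀ x l, T x l = ∑ m, M l m * x m := by
    intro x l
    have h1 : T x = Matrix.toLin' M x := by rw [hM, Matrix.toLin'_toMatrix']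
    rw [h1, Matrix.toLin'_apply]
    rfl
  have hdet : LinearMap.det T = M.det := (LinearMap.det_toMatrix' T).symm
  have hMu : IsUnit M := by
    rw [Matrix.isUnit_iff_isUnit_det, ← hdet]
    exact A.linear.isUnit_det'
  have hS0 : (Mᵀ).det ≠ 0 := by
    rw [Matrix.det_transpose]
    exact ((Matrix.isUnit_iff_isUnit_det _).1 hMu).ne_zero
  have hSu : IsUnit (Mᵀ)⁻¹ := by
    rw [Matrix.isUnit_nonsing_inv_iff, Matrix.isUnit_iff_isUnit_det]
    exact isUnit_iff_ne_zero.2 hS0
  -- images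
  have hlin : ∀ (Y : Fin n → Fin d → ℝ) (x : Fin n → ℝ),
      lin Y (T x) = lin (fun m c => ∑ l, Mᵀ m l * Y l c) x := by
    intro Y x
    funext c
    simp only [lin, hTM, Matrix.transpose_apply]
    calc ∑ l, (∑ m, M l m * x m) * Y l c = ∑ l, ∑ m, M l m * x m * Y l c := by
          refine Finset.sum_congr rfl (fun l _ => ?_)
          rw [Finset.sum_mul]
      _ = ∑ m, ∑ l, M l m * x m * Y l c := Finset.sum_comm
      _ = ∑ m, x m * ∑ l, M l m * Y l c := by
          refine Finset.sum_congr rfl (fun m _ => ?_)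
          rw [Finset.mul_sum]
          refine Finset.sum_congr rfl (fun l _ => ?_)
          ring
  have himg : ∀ Y : Fin n → Fin d → ℝ, lin Y '' (A '' K) =
      (fun z => z + lin Y (A 0)) '' (lin (fun m c => ∑ l, Mᵀ m l * Y l c) '' K) := by
    intro Y
    rw [image_image, image_image]
    refine image_congr (fun x _ => ?_)
    rw [hA x, lin_add, hlin]
  have hfK : ∀ Y : Fin n → Fin d → ℝ, fK d (A '' K) Y =
      fK d K (fun m c => ∑ l, Mᵀ m l * Y l c) := by
    intro Y
    rw [fK, fK, himg]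
    have : volume ((fun z => z + lin Y (A 0)) '' (lin (fun m c => ∑ l, Mᵀ m l * Y l c) '' K)) =
        volume (lin (fun m c => ∑ l, Mᵀ m l * Y l c) '' K) := by
      rw [image_add_right, measure_preimage_add_right]
    rw [this]
  have hvol : volume (A '' K) = ENNReal.ofReal |M.det| * volume K := by
    have h1 : A '' K = (fun z => z + A 0) '' (T '' K) := by
      rw [image_image]
      exact image_congr (fun x _ => hA x)
    rw [h1, image_add_right, measure_preimage_add_right, Measure.addHaar_image_linearMap, hdet]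
  -- the inverse substitution
  have hinv : ∀ Y : Fin n → Fin d → ℝ,
      (fun m c => ∑ l, (Mᵀ)⁻¹ m l * (∑ k, Mᵀ l k * Y k c)) = Y := by
    intro Y
    funext m c
    calc ∑ l, (Mᵀ)⁻¹ m l * (∑ k, Mᵀ l k * Y k c) = ∑ k, ((Mᵀ)⁻¹ * Mᵀ) m k * Y k c := by
          simp only [Matrix.mul_apply, Finset.mul_sum, Finset.sum_mul]
          rw [Finset.sum_comm]
          refine Finset.sum_congr rfl (fun k _ => Finset.sum_congr rfl (fun l _ => ?_))
          ring
      _ = Y m c := by
          rw [Matrix.nonsing_inv_mul _ (isUnit_iff_ne_zero.2 hS0), Finset.sum_eq_single m]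
          · rw [Matrix.one_apply_eq, one_mul]
          · intro k _ hk
            rw [Matrix.one_apply_ne hk.symm, zero_mul]
          · intro h; exact absurd (Finset.mem_univ m) h
  have hmain : IQ 1 (fK d (A '' K)) * ENNReal.ofReal (|M.det| ^ d) = IQ 1 (fK d K) := by
    have h1 := hR n d Mᵀ hS0 (fun Z => fK d K Z * eta 1 (fun m c => ∑ l, (Mᵀ)⁻¹ m l * Z l c))
    rw [Matrix.det_transpose] at h1
    have h2 : IQ 1 (fK d (A '' K)) = ∫⁻ Y : Fin n → Fin d → ℝ,
        fK d K (fun m c => ∑ l, Mᵀ m l * Y l c) *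
          eta 1 (fun m c => ∑ l, (Mᵀ)⁻¹ m l * (∑ k, Mᵀ l k * Y k c)) := by
      rw [IQ]
      refine lintegral_congr (fun Y => ?_)
      rw [hfK, hinv]
    rw [h2, h1]
    have h3 : ∫⁻ Y : Fin n → Fin d → ℝ, fK d K Y * eta 1 (fun m c => ∑ l, (Mᵀ)⁻¹ m l * Y l c) =
        IQ (((Mᵀ)⁻¹)ᵀ * (Mᵀ)⁻¹) (fK d K) := by
      rw [IQ]
      refine lintegral_congr (fun Y => ?_)
      rw [eta_one_mul]
    rw [h3]
    exact hG n d hd hdn _ (hF n d K hK).1 (hF n d K hK).2 _ _ (posDef_tmul hSu) Matrix.PosDef.one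
  rw [hvol, mul_pow, mul_assoc, mul_comm (ENNReal.ofReal |M.det| ^ d), mul_assoc, ← hmain,
    ENNReal.ofReal_pow (abs_nonneg _)]

end Pool.Agent.Helper56.LQ
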