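import Pool.Agent.Helper31.LQ.Goals

set_option autoImplicit false

open MeasureTheory Set Filter
open scoped ENNReal Matrix Topology

noncomputable section

namespace Pool.Agent.Helper56.LQ

open Pool.Agent.Helper31.LQ

variable {n d : ℕ}

theorem good_mono {R R' : ℝ} (h : R ≤ R') {Y : Fin n → Fin d → ℝ} (hG : Good R Y) : Good R' Y := by
  obtain ⟨h1, h2, h3⟩ := hG
  refine ⟨h1, fun o c => (h2 o c).trans h, fun π hπ => ⟨?_, fun o ho => ?_⟩⟩
  · exact (h3 π hπ).1.trans (mul_le_mul_of_nonneg_right h (abs_nonneg _))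
  · exact ((h3 π hπ).2 o ho).trans (mul_le_mul_of_nonneg_right h (hπ.2 o ho).le)

theorem ev_mul {a : ℝ} (ha : 0 < a) : ∀ᶠ k : ℕ in atTop, 1 ≤ ((k : ℝ) + 1) * a := by
  obtain ⟨N, hN⟩ := exists_nat_gt (1 / a)
  filter_upwards [eventually_ge_atTop N] with k hk
  have h1 : (N : ℝ) ≤ k := by exact_mod_cast hk
  have h2 : 1 < N * a := by rwa [div_lt_iff₀ ha] at hN
  nlinarith

theorem good_ev {Y : Fin n → Fin d → ℝ} (h : GP Y) : ∀ᶠ k : ℕ in atTop, Good ((k : ℝ) + 1) Y := by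
  have h1 : ∀ᶠ k : ℕ in atTop, ∀ o c, |yv Y o c| ≤ (k : ℝ) + 1 := by
    rw [eventually_all]; intro o
    rw [eventually_all]; intro c
    obtain ⟨N, hN⟩ := exists_nat_gt (|yv Y o c|)
    filter_upwards [eventually_ge_atTop N] with k hk
    have h1 : (N : ℝ) ≤ k := by exact_mod_cast hk
    linarith
  have h2 : ∀ᶠ k : ℕ in atTop, ∀ π, IsFac Y π → 1 ≤ ((k : ℝ) + 1) * |(mat Y π).det| := by
    rw [eventually_all]; intro π
    by_cases hπ : IsFac Y π
    · filter_upwards [ev_mul (abs_pos.2 hπ.1)] with k hk _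
      exact hk
    · exact Eventually.of_forall (fun k h => absurd h hπ)
  have h3 : ∀ᶠ k : ℕ in atTop, ∀ π, IsFac Y π → ∀ o, d ≤ (π.symm o).val →
      1 ≤ ((k : ℝ) + 1) * kp Y π o := by
    rw [eventually_all]; intro π
    by_cases hπ : IsFac Y π
    · have : ∀ᶠ k : ℕ in atTop, ∀ o, d ≤ (π.symm o).val → 1 ≤ ((k : ℝ) + 1) * kp Y π o := by
        rw [eventually_all]; intro o
        by_cases ho : d ≤ (π.symm o).val
        · filter_upwards [ev_mul (hπ.2 o ho)] with k hk _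
          exact hk
        · exact Eventually.of_forall (fun k h => absurd h ho)
      filter_upwards [this] with k hk _
      exact hk
    · exact Eventually.of_forall (fun k h => absurd h hπ)
  filter_upwards [h1, h2, h3] with k h1 h2 h3
  exact ⟨h, h1, fun π hπ => ⟨h2 π hπ, h3 π hπ⟩⟩

theorem gAVGG (hJ : JFIN) (hQ : Q0P) (hD : D0B) (hGP : GPAE) : AVGG := by
  intro n d hd hdn
  have hW : W0 n d univ = IQ (Q0 n) (fK d (D0 n)) := by
    rw [W0, withDensity_apply _ MeasurableSet.univ, Measure.restrict_univ, IQ]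
  obtain ⟨h1, h2⟩ := hJ n d hd hdn.le (D0 n) (hD n (hd.trans hdn.le)).2.2.1 (Q0 n) (hQ n d).1
  rw [← hW] at h1 h2
  refine ⟨h1.ne', h2.ne, fun θ hθ => ?_⟩
  have hmono : Monotone (fun k : ℕ => {Y : Fin n → Fin d → ℝ | Good ((k : ℝ) + 1) Y}) := by
    intro k l hkl Y hY
    have : (k : ℝ) ≤ l := by exact_mod_cast hkl
    exact good_mono (by linarith) hY
  have ht := tendsto_measure_iUnion_atTop (μ := W0 n d) hmono
  have hU : W0 n d (⋃ k : ℕ, {Y : Fin n → Fin d → ℝ | Good ((k : ℝ) + 1) Y}) = W0 n d univ := by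
    have hac : W0 n d ≪ volume := withDensity_absolutelyContinuous _ _
    have hae : ∀ᵐ Y ∂(W0 n d), GP Y := hac.ae_le (hGP n d hd hdn)
    refine measure_congr ?_
    filter_upwards [hae] with Y hY
    apply propext
    constructor
    · intro _; trivial
    · intro _
      obtain ⟨k, hk⟩ := (good_ev hY).exists
      exact mem_iUnion.2 ⟨k, hk⟩
  rw [hU] at ht
  have ht2 := (ENNReal.tendsto_toReal h2.ne).comp ht
  have hpos : 0 < (W0 n d univ).toReal := ENNReal.toReal_pos h1.ne' h2.ne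
  have hlt : (1 - θ) * (W0 n d univ).toReal < (W0 n d univ).toReal := by nlinarith
  obtain ⟨k, hk⟩ := (ht2.eventually (lt_mem_nhds hlt)).exists
  exact ⟨(k : ℝ) + 1, by have : (0 : ℝ) ≤ k := Nat.cast_nonneg k; linarith, hk.le⟩

end Pool.Agent.Helper56.LQ
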