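import Pool.Agent.Helper31.LQ.Goals

set_option autoImplicit false

open MeasureTheory Set
open scoped ENNReal Matrix

noncomputable section

namespace Pool.Agent.Helper56.LQ

open Pool.Agent.Helper31.LQ Pool.Agent.Helper47.AQ

variable {n d : ℕ}

theorem grm_one_apply (Y : Fin n → Fin d → ℝ) (a b : Fin d) :
    grm 1 Y a b = ∑ l, Y l a * Y l b := by
  rw [grm, Matrix.of_apply]
  refine Finset.sum_congr rfl (fun l _ => ?_)
  rw [Finset.sum_eq_single l]
  · rw [Matrix.one_apply_eq, mul_one]
  · intro m _ hm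
    rw [Matrix.one_apply_ne hm.symm, mul_zero, zero_mul]
  · intro h; exact absurd (Finset.mem_univ l) h

theorem trace_grm_one (Y : Fin n → Fin d → ℝ) : (grm 1 Y).trace = ∑ l, ∑ a, Y l a ^ 2 := by
  rw [Matrix.trace, Finset.sum_comm]
  refine Finset.sum_congr rfl (fun a _ => ?_)
  rw [Matrix.diag_apply, grm_one_apply]
  refine Finset.sum_congr rfl (fun l _ => ?_)
  ring

theorem gauss_fin (n d : ℕ) : ∫⁻ Y : Fin n → Fin d → ℝ,
    ENNReal.ofReal (Real.exp (-(∑ l, ∑ a, Y l a ^ 2) / 2)) < ⊤ := by
  have h1 : Integrable (fun x : ℝ => Real.exp (-(1 / 2) * x ^ 2)) :=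
    integrable_exp_neg_mul_sq (by norm_num)
  have h2 : Integrable (fun y : Fin d → ℝ => ∏ a, Real.exp (-(1 / 2) * (y a) ^ 2)) :=
    Integrable.fintype_prod (f := fun _ x => Real.exp (-(1 / 2) * x ^ 2)) (fun _ => h1)
  have h3 : Integrable (fun Y : Fin n → Fin d → ℝ => ∏ l, ∏ a, Real.exp (-(1 / 2) * (Y l a) ^ 2)) :=
    Integrable.fintype_prod (f := fun _ (y : Fin d → ℝ) => ∏ a, Real.exp (-(1 / 2) * (y a) ^ 2))
      (fun _ => h2)
  have h4 := h3.lintegral_lt_top
  refine lt_of_le_of_lt (le_of_eq ?_) h4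
  refine lintegral_congr (fun Y => ?_)
  congr 1
  simp only [← Real.exp_sum]
  congr 1
  rw [neg_div, Finset.sum_div, ← Finset.sum_neg_distrib]
  refine Finset.sum_congr rfl (fun l _ => ?_)
  rw [Finset.sum_div, ← Finset.sum_neg_distrib]
  refine Finset.sum_congr rfl (fun a _ => ?_)
  ring

theorem lin_cont (Y : Fin n → Fin d → ℝ) : Continuous (lin Y) := by
  refine continuous_pi (fun c => ?_)
  exact continuous_finsetSum _ (fun l _ => (continuous_apply l).mul continuous_const)

theorem gJFIN (hB : BALL) (hG : G2) (hF : FKH) (hR : GRM) : JFIN := by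
  intro n d hd hdn K hK Q hQ
  have hKc : IsCompact K := hK.comp
  obtain ⟨hFm, hFh⟩ := hF n d K hKc
  have h1 : IQ Q (fK d K) = IQ 1 (fK d K) :=
    hG n d hd hdn _ hFm hFh Q 1 hQ Matrix.PosDef.one
  rw [h1]
  have hn : n ≠ 0 := by omega
  constructor
  · have hm : Measurable (fun Y : Fin n → Fin d → ℝ => fK d K Y * eta 1 Y) := by
      refine hFm.mul ?_
      exact (hR n d 1 Matrix.PosDef.one (fun _ _ => 0)).2.2.2.2.2
    rw [IQ, lintegral_pos_iff_support hm]
    have hcont : Continuous (fun Y : Fin n → Fin d → ℝ => (grm 1 Y).det) := by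
      refine Continuous.matrix_det ?_
      refine continuous_matrix (fun a b => ?_)
      simp only [grm_one_apply]
      have hc1 : ∀ (l : Fin n) (c : Fin d), Continuous (fun Y : Fin n → Fin d → ℝ => Y l c) :=
        fun l c => (continuous_apply c).comp (continuous_apply l)
      exact continuous_finsetSum _ (fun l _ => (hc1 l a).mul (hc1 l b))
    have hopen : IsOpen {Y : Fin n → Fin d → ℝ | 0 < (grm 1 Y).det} :=
      isOpen_lt continuous_const hcont
    have hne : ({Y : Fin n → Fin d → ℝ | 0 < (grm 1 Y).det}).Nonempty := by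
      refine ⟨fun l a => if l.val = a.val then 1 else 0, ?_⟩
      have : grm 1 (fun (l : Fin n) (a : Fin d) => if l.val = a.val then (1 : ℝ) else 0) = 1 := by
        ext a b
        rw [grm_one_apply]
        have ha : a.val < n := lt_of_lt_of_le a.2 hdn
        rw [Finset.sum_eq_single ⟨a.val, ha⟩]
        · by_cases hab : a = b
          · subst hab
            simp
          · rw [Matrix.one_apply_ne hab]
            have : ¬ a.val = b.val := fun h => hab (Fin.ext h)
            simp [this]
        · intro l _ hl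
          have : ¬ l.val = a.val := fun h => hl (Fin.ext h)
          simp [this]
        · intro h; exact absurd (Finset.mem_univ _) h
      show 0 < (grm 1 (fun (l : Fin n) (a : Fin d) => if l.val = a.val then (1 : ℝ) else 0)).det
      rw [this, Matrix.det_one]
      exact one_pos
    refine lt_of_lt_of_le (hopen.measure_pos volume hne) (measure_mono ?_)
    intro Y hY
    have hY' : 0 < (grm 1 Y).det := hY
    rw [Function.mem_support]
    refine mul_ne_zero ?_ ?_
    · rw [fK]
      refine ENNReal.inv_ne_zero.2 (ENNReal.pow_ne_top ?_)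
      exact (hKc.image (lin_cont Y)).measure_lt_top.ne
    · rw [eta]
      refine (ENNReal.ofReal_pos.2 ?_).ne'
      have := Real.sqrt_pos.2 hY'
      positivity
  · obtain ⟨c, hc, hcY⟩ := hB n d K hK
    have hle : ∀ Y : Fin n → Fin d → ℝ, fK d K Y * eta 1 Y ≤
        ENNReal.ofReal ((c ^ n)⁻¹) * ENNReal.ofReal (Real.exp (-(∑ l, ∑ a, Y l a ^ 2) / 2)) := by
      intro Y
      rw [eta, trace_grm_one]
      set D := Real.sqrt (grm 1 Y).det with hD
      have hD0 : 0 ≤ D := Real.sqrt_nonneg _
      rcases hD0.eq_or_lt with h0 | h0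
      · rw [← h0, zero_pow hn, zero_mul, ENNReal.ofReal_zero, mul_zero]
        exact zero_le
      · rw [ENNReal.ofReal_mul (by positivity), ← mul_assoc]
        refine mul_le_mul_left ?_ _
        have h2 : fK d K Y ≤ ENNReal.ofReal (((c * D) ^ n)⁻¹) := by
          rw [fK, ENNReal.ofReal_inv_of_pos (by positivity), ENNReal.ofReal_pow (by positivity)]
          exact ENNReal.inv_le_inv.2 (pow_le_pow_left' (hcY Y) n)
        refine (mul_le_mul_left h2 _).trans (le_of_eq ?_)
        rw [← ENNReal.ofReal_mul (by positivity)]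
        congr 1
        rw [mul_pow]
        field_simp
    rw [IQ]
    refine lt_of_le_of_lt (lintegral_mono hle) ?_
    rw [lintegral_const_mul' _ _ ENNReal.ofReal_ne_top]
    exact ENNReal.mul_lt_top ENNReal.ofReal_lt_top (gauss_fin n d)

end Pool.Agent.Helper56.LQ
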