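import Pool.Agent.Helper31.LQ.Goals

set_option autoImplicit false

open MeasureTheory Set
open scoped ENNReal Matrix Pointwise Topology

noncomputable section

namespace Pool.Agent.Helper56.LQ

open Pool.Agent.Helper31.LQ

variable {n d : ℕ}

/-- `lin Y` as a linear map -/
def linL (Y : Fin n → Fin d → ℝ) : (Fin n → ℝ) →ₗ[ℝ] (Fin d → ℝ) where
  toFun := lin Y
  map_add' x y := by
    funext c
    simp only [lin, Pi.add_apply, add_mul, Finset.sum_add_distrib]
  map_smul' r x := by
    funext c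
    simp only [lin, Pi.smul_apply, smul_eq_mul, RingHom.id_apply, Finset.mul_sum, mul_assoc]

theorem linL_apply (Y : Fin n → Fin d → ℝ) (x : Fin n → ℝ) : linL Y x = lin Y x := rfl

theorem emb_add (m : ℕ) (π : Equiv.Perm (Fin (n + 1))) (x y : Fin m → ℝ) :
    emb m π (x + y) = emb m π x + emb m π y := by
  funext o
  by_cases h : (π.symm o).val < m <;> simp [emb, h]

theorem emb_smul (m : ℕ) (π : Equiv.Perm (Fin (n + 1))) (r : ℝ) (x : Fin m → ℝ) :
    emb m π (r • x) = r • emb m π x := by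
  funext o
  by_cases h : (π.symm o).val < m <;> simp [emb, h]

/-- `pr ∘ emb` as a linear map -/
def peL (m : ℕ) (π : Equiv.Perm (Fin (n + 1))) : (Fin m → ℝ) →ₗ[ℝ] (Fin n → ℝ) where
  toFun s := pr (emb m π s)
  map_add' x y := by
    rw [emb_add]
    funext l
    simp only [pr, Pi.add_apply]
    ring
  map_smul' r x := by
    rw [emb_smul]
    funext l
    simp only [pr, Pi.smul_apply, smul_eq_mul, RingHom.id_apply]
    ring

theorem peL_apply (m : ℕ) (π : Equiv.Perm (Fin (n + 1))) (s : Fin m → ℝ) :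
    peL m π s = pr (emb m π s) := rfl

theorem linL_surj (hCO : CO) {Y : Fin n → Fin d → ℝ} {π : Equiv.Perm (Fin (n + 1))}
    (h : (mat Y π).det ≠ 0) : Function.Surjective (linL Y) := by
  intro z
  have h1 := (hCO n d Y).2.2.2.2.2.2.2.2.2.2.2.1 π (Matrix.vecMul z (mat Y π)⁻¹)
  refine ⟨_, h1.trans ?_⟩
  rw [Matrix.vecMul_vecMul, Matrix.nonsing_inv_mul _ (isUnit_iff_ne_zero.2 h), Matrix.vecMul_one]

theorem gauge_lin_le {K : Set (Fin n → ℝ)} (h0 : K ∈ 𝓝 0) (Y : Fin n → Fin d → ℝ) (x : Fin n → ℝ) :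
    gauge (lin Y '' K) (lin Y x) ≤ gauge K x := by
  refine le_of_forall_gt (fun a ha => ?_)
  obtain ⟨b, hb0, hba, hxb⟩ := exists_lt_of_gauge_lt (absorbent_nhds_zero h0) ha
  refine lt_of_le_of_lt (gauge_le_of_mem hb0.le ?_) hba
  obtain ⟨y, hy, rfl⟩ := hxb
  refine ⟨lin Y y, ⟨y, hy, rfl⟩, ?_⟩
  exact ((linL Y).map_smul b y).symm

theorem le_gauge_lin (hKPF : KPF) (hPSI : PSI) (hd : 1 ≤ d) (hdn : d ≤ n) {K : Set (Fin n → ℝ)}
    {τ : ℝ} (hK : Pos n K τ) {Y : Fin n → Fin d → ℝ} {π : Equiv.Perm (Fin (n + 1))}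
    (hπ : IsFac Y π) (hB : lin Y '' K ∈ 𝓝 (0 : Fin d → ℝ)) (z : Fin d → ℝ) :
    ∑ c, nu Y π c * z c ≤ gauge (lin Y '' K) z := by
  obtain ⟨C, -, hC⟩ := hPSI n (hd.trans hdn)
  obtain ⟨-, -, -, -, -, -, hell⟩ := hC K τ hK
  obtain ⟨-, -, hs, hx, hnn⟩ := hKPF n d hd hdn Y π hπ.1
  refine le_of_forall_gt (fun a ha => ?_)
  obtain ⟨b, hb0, hba, hzb⟩ := exists_lt_of_gauge_lt (absorbent_nhds_zero hB) ha
  refine lt_of_le_of_lt ?_ hba
  obtain ⟨_, ⟨x, hxK, rfl⟩, rfl⟩ := hzb
  have h1 : ∑ c, nu Y π c * (b • lin Y x) c = b * ∑ c, nu Y π c * lin Y x c := by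
    rw [Finset.mul_sum]
    refine Finset.sum_congr rfl (fun c _ => ?_)
    rw [Pi.smul_apply, smul_eq_mul]
    ring
  have h2 : ∑ o, kp Y π o * ell o (li x) ≤ ∑ o, kp Y π o * 1 :=
    Finset.sum_le_sum (fun o _ => mul_le_mul_of_nonneg_left
      ((hell o x).trans (gauge_le_one_of_mem hxK)) (hnn hπ o))
  simp only [mul_one, hs] at h2
  show ∑ c, nu Y π c * (b • lin Y x) c ≤ b
  rw [h1, hx]
  calc b * ∑ o, kp Y π o * ell o (li x) ≤ b * 1 := mul_le_mul_of_nonneg_left h2 hb0.le
    _ = b := mul_one b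

theorem gRAT (hX1 : X1) (hX2 : X2) (hCO : CO) (hPSI : PSI) (hKPF : KPF) (hDEC : DEC) (hVD0 : VD0) :
    RAT := by
  classical
  intro n d hd hdn K τ hK Y hGP
  obtain ⟨C, -, hC⟩ := hPSI n (hd.trans hdn.le)
  obtain ⟨-, h0K, -, -, -, hpsi, -⟩ := hC K τ hK
  have hK0 : K ∈ 𝓝 (0 : Fin n → ℝ) := mem_interior_iff_mem_nhds.1 h0K
  have hsurj := linL_surj hCO (hGP 1).1
  have hopen : IsOpenMap (linL Y) := (linL Y).isOpenMap_of_finiteDimensional hsurj
  have hB0 : lin Y '' K ∈ 𝓝 (0 : Fin d → ℝ) := by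
    have h1 := hopen.image_mem_nhds hK0
    rw [map_zero] at h1
    exact h1
  have hcL : Continuous (lin Y) := (linL Y).continuous_of_finiteDimensional
  have hBc : Convex ℝ (lin Y '' K) := hK.conv.linear_image (linL Y)
  have hBK : IsCompact (lin Y '' K) := hK.comp.image hcL
  have hgc : Continuous (gauge (lin Y '' K)) := continuous_gauge hBc hB0
  -- part 1
  have hpart1 : ∀ π, IsFac Y π → SL d (Ups Y π K) ∧ ∀ t ∈ pos d, Ups Y π K t ≤ τ * ∑ a, t a := by
    intro π hπ
    have hU : ∀ t, Ups Y π K t = gauge (lin Y '' K) (linL Y (peL d π t)) - ∑ a, t a := fun t => rfl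
    obtain ⟨hk1, -, -, -, -⟩ := hKPF n d hd hdn.le Y π hπ.1
    refine ⟨⟨?_, ?_, ?_, ?_⟩, ?_⟩
    · have h1 : Continuous (fun t : Fin d → ℝ => linL Y (peL d π t)) :=
        ((linL Y).comp (peL d π)).continuous_of_finiteDimensional
      have h2 : Continuous (fun t : Fin d → ℝ => ∑ a, t a) :=
        continuous_finsetSum _ (fun a _ => continuous_apply a)
      exact (hgc.comp h1).sub h2
    · intro t
      have h1 := le_gauge_lin hKPF hPSI hd hdn.le hK hπ hB0 (lin Y (pr (emb d π t)))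
      rw [hk1 t] at h1
      exact sub_nonneg.2 h1
    · intro s t
      rw [hU, hU, hU, map_add, map_add]
      have h1 := gauge_add_le hBc (absorbent_nhds_zero hB0) (linL Y (peL d π s))
        (linL Y (peL d π t))
      simp only [Pi.add_apply, Finset.sum_add_distrib]
      linarith
    · intro c hc t
      rw [hU, hU, map_smul, map_smul, gauge_smul_of_nonneg hc]
      simp only [Pi.smul_apply, smul_eq_mul, ← Finset.mul_sum]
      ring
    · intro t ht
      have ht0 : ∀ o, 0 ≤ emb d π t o := by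
        intro o
        rw [emb]
        split_ifs with h
        · exact (ht _).le
        · exact le_rfl
      have hlast : emb d π t (π (Fin.last n)) = 0 := by
        rw [emb, dif_neg]
        rw [Equiv.symm_apply_apply, Fin.val_last]
        omega
      have hsum : ∑ o, emb d π t o = ∑ a, t a :=
        (hCO n d Y).2.2.2.2.2.2.2.2.2.2.1 π t (by omega)
      have h1 := hpsi (π (Fin.last n)) (emb d π t) ht0 hlast
      rw [psi, ell, hlast, hsum, mul_zero, sub_zero] at h1
      have h2 := gauge_lin_le hK0 Y (pr (emb d π t))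
      show gauge (lin Y '' K) (lin Y (pr (emb d π t))) - ∑ a, t a ≤ _
      linarith
  refine ⟨hpart1, ?_⟩
  -- part 2
  set c : ℝ := ((1 + τ) ^ (d + 1))⁻¹ with hc
  have hτ := hK.tau0
  have hFm : Measurable (fun z : Fin d → ℝ => ENNReal.ofReal (Real.exp (-(gauge (lin Y '' K) z)))) :=
    (ENNReal.continuous_ofReal.comp (Real.continuous_exp.comp hgc.neg)).measurable
  have hdec := hDEC n d hd hdn.le Y hGP _ hFm
  have hlap : ∫⁻ z, ENNReal.ofReal (Real.exp (-(gauge (lin Y '' K) z))) =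
      (d.factorial : ℝ≥0∞) * volume (lin Y '' K) := by
    have h1 := Pool.Agent.Helper47.AQ.laplace (ι := Fin d) univ (fun t _ x => by simp)
      (gauge (lin Y '' K)) hgc.measurable
      (fun t ht x => by rw [gauge_smul_of_nonneg ht.le, smul_eq_mul])
      (fun x => gauge_nonneg x)
    rw [univ_inter, Measure.restrict_univ, Fintype.card_fin] at h1
    rw [h1]
    have h2 : {x | gauge (lin Y '' K) x ≤ 1} = lin Y '' K := by
      ext x
      rw [Set.mem_ofPred_eq, gauge_le_one_iff_mem_closure hBc hB0, hBK.isClosed.closure_eq]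
    rw [h2]
  have hfac : ∀ π, IsFac Y π →
      0 ≤ 1 - c * Ex d (Ups Y π K) ∧
      ∫⁻ t in pos d, ENNReal.ofReal (Real.exp (-(gauge (lin Y '' K) (lin Y (pr (emb d π t)))))) ≤
        ENNReal.ofReal (1 - c * Ex d (Ups Y π K)) := by
    intro π hπ
    obtain ⟨hSL, hle⟩ := hpart1 π hπ
    obtain ⟨hi1, he1⟩ := (hX2 d).1 1 one_pos
    simp only [one_mul, one_pow, inv_one] at hi1 he1
    obtain ⟨hi2, he2⟩ := hX1 d (Ups Y π K) hSL (1 + τ) (by linarith)
    have hpm : MeasurableSet (pos d) := by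
      have : pos d = ⋂ a : Fin d, {t | 0 < t a} := by
        ext t
        simp [pos]
      rw [this]
      exact MeasurableSet.iInter (fun a => measurableSet_lt measurable_const (measurable_pi_apply a))
    have hpt : ∀ t ∈ pos d, Real.exp (-(gauge (lin Y '' K) (lin Y (pr (emb d π t))))) ≤
        Real.exp (-∑ a, t a) - Real.exp (-((1 + τ) * ∑ a, t a)) * Ups Y π K t := by
      intro t ht
      have hU : gauge (lin Y '' K) (lin Y (pr (emb d π t))) = ∑ a, t a + Ups Y π K t := by
        rw [Ups]; ring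
      rw [hU]
      set u := Ups Y π K t with hu
      have hu0 : 0 ≤ u := hSL.nn t
      have hu1 : u ≤ τ * ∑ a, t a := hle t ht
      set s := ∑ a, t a with hs
      have e1 : Real.exp (-(s + u)) = Real.exp (-s) * Real.exp (-u) := by
        rw [← Real.exp_add]; congr 1; ring
      have e2 : Real.exp (-((1 + τ) * s)) ≤ Real.exp (-s) * Real.exp (-u) := by
        rw [← e1]
        apply Real.exp_le_exp.2
        linarith
      have e3 : Real.exp (-u) * (1 + u) ≤ 1 := by
        have h1 : 1 + u ≤ Real.exp u := by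
          have := Real.add_one_le_exp u
          linarith
        calc Real.exp (-u) * (1 + u) ≤ Real.exp (-u) * Real.exp u :=
              mul_le_mul_of_nonneg_left h1 (Real.exp_pos _).le
          _ = 1 := by rw [← Real.exp_add, neg_add_cancel, Real.exp_zero]
      have e4 : Real.exp (-((1 + τ) * s)) * u ≤ Real.exp (-s) * Real.exp (-u) * u :=
        mul_le_mul_of_nonneg_right e2 hu0
      have e5 : Real.exp (-s) * (Real.exp (-u) * (1 + u)) ≤ Real.exp (-s) * 1 :=
        mul_le_mul_of_nonneg_left e3 (Real.exp_pos _).le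
      rw [e1]
      nlinarith
    have hint : IntegrableOn (fun t => Real.exp (-∑ a, t a) -
        Real.exp (-((1 + τ) * ∑ a, t a)) * Ups Y π K t) (pos d) := hi1.sub hi2
    have hval : ∫ t in pos d, (Real.exp (-∑ a, t a) -
        Real.exp (-((1 + τ) * ∑ a, t a)) * Ups Y π K t) = 1 - c * Ex d (Ups Y π K) := by
      rw [integral_sub hi1 hi2, he1, he2]
    have hnn : ∀ t ∈ pos d, 0 ≤ Real.exp (-∑ a, t a) -
        Real.exp (-((1 + τ) * ∑ a, t a)) * Ups Y π K t :=
      fun t ht => (Real.exp_pos _).le.trans (hpt t ht)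
    have hnn' : 0 ≤ᵐ[volume.restrict (pos d)] (fun t => Real.exp (-∑ a, t a) -
        Real.exp (-((1 + τ) * ∑ a, t a)) * Ups Y π K t) :=
      (ae_restrict_iff' hpm).2 (Filter.Eventually.of_forall hnn)
    constructor
    · rw [← hval]
      exact integral_nonneg_of_ae hnn'
    · rw [← hval, ofReal_integral_eq_lintegral_ofReal hint hnn']
      exact setLIntegral_mono' hpm (fun t ht => ENNReal.ofReal_le_ofReal (hpt t ht))
  obtain ⟨hv1, hv2, hv3, hNst⟩ := hVD0 n d hd hdn.le Y hGP
  have hvB : volume (lin Y '' K) ≠ ⊤ := hBK.measure_lt_top.ne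
  rw [hlap] at hdec
  have hsum : (Nst n d : ℝ≥0∞) * ((d.factorial : ℝ≥0∞) * volume (lin Y '' K)) ≤
      ENNReal.ofReal (∑ π : Equiv.Perm (Fin (n + 1)), if IsFac Y π then
        |(mat Y π).det| * (1 - c * Ex d (Ups Y π K)) else 0) := by
    rw [hdec, ENNReal.ofReal_sum_of_nonneg]
    · refine Finset.sum_le_sum (fun π _ => ?_)
      split_ifs with h
      · rw [ENNReal.ofReal_mul (abs_nonneg _)]
        exact mul_le_mul_right (hfac π h).2 _
      · simp
    · intro π _
      split_ifs with h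
      · exact mul_nonneg (abs_nonneg _) (hfac π h).1
      · exact le_rfl
  have hnnsum : 0 ≤ ∑ π : Equiv.Perm (Fin (n + 1)), if IsFac Y π then
        |(mat Y π).det| * (1 - c * Ex d (Ups Y π K)) else 0 := by
    refine Finset.sum_nonneg (fun π _ => ?_)
    split_ifs with h
    · exact mul_nonneg (abs_nonneg _) (hfac π h).1
    · exact le_rfl
  have hreal := ENNReal.toReal_mono ENNReal.ofReal_ne_top hsum
  rw [ENNReal.toReal_ofReal hnnsum, ENNReal.toReal_mul, ENNReal.toReal_mul, ENNReal.toReal_natCast,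
    ENNReal.toReal_natCast] at hreal
  have hsplit : (∑ π : Equiv.Perm (Fin (n + 1)), if IsFac Y π then
        |(mat Y π).det| * (1 - c * Ex d (Ups Y π K)) else 0) =
      (∑ π : Equiv.Perm (Fin (n + 1)), if IsFac Y π then |(mat Y π).det| else 0) -
      c * ∑ π : Equiv.Perm (Fin (n + 1)), if IsFac Y π then
        |(mat Y π).det| * Ex d (Ups Y π K) else 0 := by
    rw [Finset.mul_sum, ← Finset.sum_sub_distrib]
    refine Finset.sum_congr rfl (fun π _ => ?_)
    split_ifs
    · ring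
    · ring
  have hv1' : ((Nst n d : ℝ) * d.factorial) * (volume (lin Y '' D0 n)).toReal =
    ∑ π : Equiv.Perm (Fin (n + 1)), if IsFac Y π then |(mat Y π).det| else 0 := by
    rw [hv1]
  rw [hsplit, ← hv1'] at hreal
  have hN : (0 : ℝ) < (Nst n d : ℝ) * d.factorial := by positivity
  have hfin : ((Nst n d : ℝ) * d.factorial) * (volume (lin Y '' K)).toReal ≤
      ((Nst n d : ℝ) * d.factorial) * ((volume (lin Y '' D0 n)).toReal -
        ((Nst n d : ℝ) * d.factorial)⁻¹ * c *
        ∑ π : Equiv.Perm (Fin (n + 1)), if IsFac Y π then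
          |(mat Y π).det| * Ex d (Ups Y π K) else 0) := by
    rw [mul_sub, ← mul_assoc, ← mul_assoc, mul_inv_cancel₀ hN.ne', one_mul]
    linarith
  have := le_of_mul_le_mul_left hfin hN
  rw [hc] at this
  exact this

end Pool.Agent.Helper56.LQ
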