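import Pool.Agent.Helper31.LQ.Goals

set_option autoImplicit false

open MeasureTheory Set
open scoped ENNReal Matrix

noncomputable section

namespace Pool.Agent.Helper56.LQ

open Pool.Agent.Helper31.LQ

variable {n d : ℕ}

/-- exchange of the indices -/
def swL (n d : ℕ) : (Fin d → Fin n → ℝ) ≃ₗ[ℝ] (Fin n → Fin d → ℝ) where
  toFun Y m c := Y c m
  map_add' _ _ := rfl
  map_smul' _ _ := rfl
  invFun Y c m := Y m c
  left_inv _ := rfl
  right_inv _ := rfl

theorem gRMUL : RMUL := by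
  intro n d S hS h
  let Φ : (Fin n → Fin d → ℝ) →ₗ[ℝ] (Fin n → Fin d → ℝ) :=
    (swL n d : (Fin d → Fin n → ℝ) →ₗ[ℝ] (Fin n → Fin d → ℝ)) ∘ₗ
      (LinearMap.pi fun c : Fin d => (Matrix.toLin' S).comp (LinearMap.proj c)) ∘ₗ
      ((swL n d).symm : (Fin n → Fin d → ℝ) →ₗ[ℝ] (Fin d → Fin n → ℝ))
  have hΦ : ∀ Y : Fin n → Fin d → ℝ, Φ Y = fun m c => ∑ l, S m l * Y l c := fun Y => rfl
  have hdet : LinearMap.det Φ = S.det ^ d := by
    have h1 := LinearMap.det_conj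
      (LinearMap.pi fun c : Fin d => (Matrix.toLin' S).comp (LinearMap.proj (R := ℝ)
        (φ := fun _ : Fin d => Fin n → ℝ) c)) (swL n d)
    refine h1.trans ?_
    rw [LinearMap.det_pi]
    simp [LinearMap.det_toLin']
  have hne : LinearMap.det Φ ≠ 0 := by rw [hdet]; exact pow_ne_zero d hS
  have hm := Measure.map_linearMap_addHaar_eq_smul_addHaar
    (volume : Measure (Fin n → Fin d → ℝ)) hne
  let e := LinearMap.equivOfDetNeZero Φ hne
  have he : ∀ Y, e Y = Φ Y := fun Y => rfl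
  let me : (Fin n → Fin d → ℝ) ≃ᵐ (Fin n → Fin d → ℝ) :=
    e.toContinuousLinearEquiv.toHomeomorph.toMeasurableEquiv
  have hme : ∀ Y, me Y = Φ Y := fun Y => rfl
  have h2 : ∫⁻ Y : Fin n → Fin d → ℝ, h (fun m c => ∑ l, S m l * Y l c) =
      ENNReal.ofReal |(LinearMap.det Φ)⁻¹| * ∫⁻ Y, h Y := by
    have h3 := lintegral_map_equiv (μ := (volume : Measure (Fin n → Fin d → ℝ))) h me
    have h4 : Measure.map me (volume : Measure (Fin n → Fin d → ℝ)) =
        ENNReal.ofReal |(LinearMap.det Φ)⁻¹| • volume := hm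
    rw [h4, lintegral_smul_measure, smul_eq_mul] at h3
    rw [h3]
    rfl
  rw [h2, mul_comm (ENNReal.ofReal _), mul_assoc, ← ENNReal.ofReal_mul (abs_nonneg _)]
  have h5 : |(LinearMap.det Φ)⁻¹| * |S.det| ^ d = 1 := by
    rw [hdet, abs_inv, abs_pow]
    exact inv_mul_cancel₀ (pow_ne_zero d (abs_ne_zero.2 hS))
  rw [h5, ENNReal.ofReal_one, mul_one]

end Pool.Agent.Helper56.LQ
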